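import Pool.Agent.U998.OQ.Cnt
import Pool.Agent.Q282.UZ.Ord

/-!
# Q1 for arithmetic schemes: one-sided bounds for numbers of solutions

Let `X` be a scheme of finite type over `ℤ`, `N(q)` the number of the points of `X` with coordinates in the field with `q` elements.
Then `ζ_X(s) = exp (∑_{q = p^n} N(q) / (n q^s))` for large `Re s`.  Let `e > 0` be a number such that the series converges absolutely for
`Re s > e` (for example the dimension of `X`), and let `a > e`.  The numbers

  `A_n(a, c) = ∑_{k=1}^{n} C(n-1, k-1) (2(a-c))^k ζ_X^{(k)}(a) / k!`, `A_0 = ζ_X(a)`,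

are finite combinations of the derivatives of `ζ_X` at the point `a` of absolute convergence; if `ζ_X(s) = ∑ x_N N^{-s}` (`x_N` is the
number of the effective zero-cycles of norm `N` on `X`), then

  `A_n(a, c) = ∑_N x_N N^{-a} P_n(2(a-c) log N)`, `P_n(t) = ∑_{k=1}^{n} C(n-1, k-1) (-t)^k / k!` (a Laguerre polynomial).

The theorem: for `c < e`, `ζ_X` extends meromorphically to `Re s > c` if and only if for each `ε > 0` some nonzero finite real combination of
consecutive `A_n(a, c)` is at least `- C exp(ε n)`.  A bound on one side is enough: if the continuation does not exist, then there is a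
`δ > 0` such that every nonzero finite combination takes values greater than `exp(δ n)` and values less than `- exp(δ n)` for
infinitely many `n`.

The starting result `OrdersOfThreeTermSystems` reduces Q1 for all schemes of finite type over `ℤ` to the systems of bilinear equations
`∑_{(i, j) ∈ E_l} x_i y_j = 0` with at most three terms.  Both together: Q1 is equivalent to one-sided bounds for the numbers
`A_n(a, -j)`, `j = 0, 1, 2, ...`, formed with the numbers of the solutions of these systems in finite fields, at one explicit point `a` of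
absolute convergence (`a` is the number of the unknowns plus `2`).  No continuation and no complex variable to the left of `a` occurs in
this form of Q1.
-/

set_option autoImplicit false

open CategoryTheory AlgebraicGeometry MvPolynomial Pool.Agent.Y116.UV Pool.Agent.Q282.UZ Filter Topology

namespace Pool.Agent.Results.MP_666bea_ag.OneSidedContinuation

/-- The Euler product `∏ (1 - N(x)^{-s})⁻¹` over the closed points `x` of `X`. -/
noncomputable def eulerProduct (X : Scheme.{0}) (s : ℂ) : ℂ :=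
  ∏' x : {x : X // IsClosed ({x} : Set X)}, (1 - ((Nat.card (X.residueField x.1) : ℂ) ^ (-s)))⁻¹

/-- The Euler product of `X` extends to a meromorphic function on `Re s > c`. -/
def ExtendsTo (X : Scheme.{0}) (c : ℝ) : Prop :=
  ∃ F : ℂ → ℂ, MeromorphicOn F {s : ℂ | c < s.re} ∧ ∃ σ : ℝ, ∀ s : ℂ, σ < s.re → F s = eulerProduct X s

/-- The Euler product of `X` extends to a meromorphic function on `ℂ` (Q1 for `X`). -/
def Continues (X : Scheme.{0}) : Prop :=
  ∃ F : ℂ → ℂ, MeromorphicOn F Set.univ ∧ ∃ σ : ℝ, ∀ s : ℂ, σ < s.re → F s = eulerProduct X s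

/-- The number of the points of `X` with coordinates in the field with `p ^ n` elements, `i = (p, n - 1)`. -/
noncomputable def points (X : Scheme.{0}) (i : Nat.Primes × ℕ) : ℕ :=
  haveI : Fact (i.1 : ℕ).Prime := ⟨i.1.2⟩
  Nat.card (Spec (CommRingCat.of (GaloisField i.1 (i.2 + 1))) ⟶ X)

/-- The number of the solutions of the system `∑_{(i, j) ∈ E_l} x_i y_j = 0`, `l = 1, …, c`, in the field with `p ^ n` elements,
`i = (p, n - 1)`. -/
noncomputable def solutions {a b c : ℕ} (E : Fin c → Finset (Fin a × Fin b)) (i : Nat.Primes × ℕ) : ℕ :=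
  haveI : Fact (i.1 : ℕ).Prime := ⟨i.1.2⟩
  Nat.card {z : (Fin a → GaloisField i.1 (i.2 + 1)) × (Fin b → GaloisField i.1 (i.2 + 1)) //
    ∀ l, ∑ e ∈ E l, z.1 e.1 * z.2 e.2 = 0}

/-- `Z(s) = exp (∑_{q = p^n} N(q) / n q^{-s})` for a family `N` of numbers; here `i = (p, n - 1)`. -/
noncomputable def Z (N : Nat.Primes × ℕ → ℕ) (s : ℂ) : ℂ :=
  Complex.exp (∑' i : Nat.Primes × ℕ, (N i : ℂ) / (i.2 + 1) * ((((i.1 : ℕ) : ℂ) ^ (i.2 + 1)) ^ (-s)))

/-- The series `∑_{q = p^n} N(q) / n q^{-σ}` converges for all real `σ > e`. -/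
def ConvergesAfter (N : Nat.Primes × ℕ → ℕ) (e : ℝ) : Prop :=
  ∀ σ : ℝ, e < σ → Summable fun i : Nat.Primes × ℕ =>
    (N i : ℝ) / (i.2 + 1) * ((((i.1 : ℕ) : ℝ) ^ (i.2 + 1)) ^ (-σ))

/-- `A_n(a, c) = ∑_{k=1}^{n} C(n-1, k-1) (2(a-c))^k f^{(k)}(a) / k!`, `A_0(a, c) = f(a)` (real parts; for the functions below the
derivatives at `a` are real). -/
noncomputable def A (f : ℂ → ℂ) (a c : ℝ) (n : ℕ) : ℝ :=
  if n = 0 then (f a).re else
    ∑ k ∈ Finset.range n, ((n - 1).choose k : ℝ) * (2 * (a - c)) ^ (k + 1) *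
      ((iteratedDeriv (k + 1) f a).re / (k + 1).factorial)

/-- The Laguerre weight `P_n(t) = ∑_{k=1}^{n} C(n-1, k-1) (-t)^k / k!`, `P_0 = 1`. -/
noncomputable def P (n : ℕ) (t : ℝ) : ℝ :=
  if n = 0 then 1 else ∑ k ∈ Finset.range n, ((n - 1).choose k : ℝ) * ((-t) ^ (k + 1) / (k + 1).factorial)

/-- The combination `∑_{j + k = n} p_j B_k = p_0 B_n + p_1 B_{n-1} + ...` of consecutive terms of a sequence. -/
def combination (p : Polynomial ℝ) (B : ℕ → ℝ) (n : ℕ) : ℝ :=
  ∑ q ∈ Finset.HasAntidiagonal.antidiagonal n, p.coeff q.1 * B q.2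

/-- For each `ε > 0` there are a nonzero real polynomial `p` and a `C` with `∑_j p_j B_{n-j} ≥ - C exp(ε n)` for all `n`. -/
def LowerComb (B : ℕ → ℝ) : Prop :=
  ∀ ε : ℝ, 0 < ε → ∃ p : Polynomial ℝ, p ≠ 0 ∧ ∃ C : ℝ, ∀ n : ℕ, -(C * Real.exp (ε * n)) ≤ combination p B n

section lemmas

open Pool.Agent.U156.OS (HP)

lemma tc_re (f : ℂ → ℂ) (a : ℝ) (k : ℕ) :
    (Pool.Agent.U156.OS.tc f a k).re = (iteratedDeriv k f a).re / k.factorial := by
  unfold Pool.Agent.U156.OS.tc
  have : ((k.factorial : ℂ))⁻¹ = (((k.factorial : ℝ))⁻¹ : ℝ) := by push_cast; rfl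
  rw [this, Complex.re_ofReal_mul, inv_mul_eq_div]

lemma A_eq (f : ℂ → ℂ) (a c : ℝ) : A f a c = Pool.Agent.U156.OS.AR f a c := by
  funext n
  unfold A Pool.Agent.U156.OS.AR Pool.Agent.U156.OS.compR
  split_ifs
  · simp only [tc_re]
    simp
  · refine Finset.sum_congr rfl fun k _ => ?_
    simp only [tc_re]

variable {f : ℂ → ℂ} {e a : ℝ}

lemma real_der (hd : DifferentiableOn ℂ f (HP e)) (ha : e < a)
    (hr : ∀ s : ℂ, e < s.re → f ((starRingEnd ℂ) s) = (starRingEnd ℂ) (f s)) (k : ℕ) :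
    (iteratedDeriv k f a).im = 0 := by
  have h1 := Pool.Agent.U156.OS.tc_real hd ha hr k
  have h2 := congrArg Complex.im h1
  rw [Complex.ofReal_im] at h2
  unfold Pool.Agent.U156.OS.tc at h2
  have : ((k.factorial : ℂ))⁻¹ = (((k.factorial : ℝ))⁻¹ : ℝ) := by push_cast; rfl
  rw [this, Complex.im_ofReal_mul] at h2
  rcases mul_eq_zero.1 h2.symm with h3 | h3
  · exfalso
    rw [inv_eq_zero] at h3
    exact (Nat.cast_ne_zero.2 k.factorial_ne_zero) h3
  · exact h3

/-- the criterion for one half-plane, with an extension which agrees with `f` far to the right -/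
lemma half_iff (hd : DifferentiableOn ℂ f (HP e)) (ha : e < a)
    (hr : ∀ s : ℂ, e < s.re → f ((starRingEnd ℂ) s) = (starRingEnd ℂ) (f s)) {h : ℂ → ℂ} {τ : ℝ}
    (hh : ∀ s : ℂ, τ < s.re → h s = f s) {c : ℝ} (hc : c < e) :
    (∃ F : ℂ → ℂ, MeromorphicOn F {s : ℂ | c < s.re} ∧ ∃ σ : ℝ, ∀ s : ℂ, σ < s.re → F s = h s) ↔ LowerComb (A f a c) := by
  rw [A_eq]
  have h1 := (Pool.Agent.U156.OS.mer_half hd hc ha hr).1
  have h2 : Pool.Agent.U156.OS.MerLow (Pool.Agent.U156.OS.AR f a c) ↔ LowerComb (Pool.Agent.U156.OS.AR f a c) := Iff.rfl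
  rw [← h2, ← h1]
  constructor
  · rintro ⟨F, hF, σ, hσ⟩
    refine Pool.Agent.U998.OQ.mer_fix hd hc hF (σ := max σ τ) fun s hs => ?_
    rw [hσ s (lt_of_le_of_lt (le_max_left _ _) hs), hh s (lt_of_le_of_lt (le_max_right _ _) hs)]
  · rintro ⟨F, hF, hFf⟩
    refine ⟨F, hF, max e τ, fun s hs => ?_⟩
    rw [hFf s (lt_of_le_of_lt (le_max_left _ _) hs), hh s (lt_of_le_of_lt (le_max_right _ _) hs)]

lemma all_iff (he : 0 < e) (hd : DifferentiableOn ℂ f (HP e)) (ha : e < a)
    (hr : ∀ s : ℂ, e < s.re → f ((starRingEnd ℂ) s) = (starRingEnd ℂ) (f s)) {h : ℂ → ℂ} {τ : ℝ}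
    (hh : ∀ s : ℂ, τ < s.re → h s = f s) :
    (∃ F : ℂ → ℂ, MeromorphicOn F Set.univ ∧ ∃ σ : ℝ, ∀ s : ℂ, σ < s.re → F s = h s) ↔
      ∀ j : ℕ, LowerComb (A f a (-(j : ℝ))) := by
  have hj : ∀ j : ℕ, -(j : ℝ) < e := fun j => by
    have : (0 : ℝ) ≤ j := Nat.cast_nonneg j
    linarith
  constructor
  · rintro ⟨F, hF, σ, hσ⟩ j
    exact (half_iff hd ha hr hh (hj j)).1 ⟨F, fun s _ => hF s trivial, σ, hσ⟩
  · intro hl
    have h1 := (Pool.Agent.U156.OS.mer_all hd (c := fun k : ℕ => -(k : ℝ)) hj (fun x => by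
      obtain ⟨k, hk⟩ := exists_nat_gt (-x)
      exact ⟨k, by linarith⟩)).2 (fun k => by
        have h2 := hl k
        rw [A_eq] at h2
        exact (Pool.Agent.U156.OS.mer_half hd (hj k) ha hr).1.2 h2)
    obtain ⟨F, hF, hFf⟩ := h1
    refine ⟨F, hF, max e τ, fun s hs => ?_⟩
    rw [hFf s (lt_of_le_of_lt (le_max_left _ _) hs), hh s (lt_of_le_of_lt (le_max_right _ _) hs)]

theorem points_system {a b c : ℕ} (E : Fin c → Finset (Fin a × Fin b)) :
    points (aff ℤ (MvPolynomial (Fin a ⊕ Fin b) ℤ ⧸ Ideal.span (Set.range fun l =>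
      ∑ e ∈ E l, (X (Sum.inl e.1) * X (Sum.inr e.2) : MvPolynomial (Fin a ⊕ Fin b) ℤ)))).left = solutions E := by
  funext i
  exact Pool.Agent.U745.SC.points_sys E i

lemma solutions_le {a b c : ℕ} (E : Fin c → Finset (Fin a × Fin b)) (i : Nat.Primes × ℕ) :
    solutions E i ≤ 1 * Pool.Agent.U745.SC.pp i ^ (a + b) := by
  have : Fact (i.1 : ℕ).Prime := ⟨i.1.2⟩
  have hK : Nat.card (GaloisField i.1 (i.2 + 1)) = (i.1 : ℕ) ^ (i.2 + 1) :=
    GaloisField.card _ _ (Nat.succ_ne_zero _)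
  have : Finite (GaloisField i.1 (i.2 + 1)) := inferInstance
  unfold solutions
  refine (Finite.card_subtype_le _).trans ?_
  rw [Nat.card_prod, Nat.card_fun, Nat.card_fun, Nat.card_eq_fintype_card (α := Fin a), Nat.card_eq_fintype_card (α := Fin b),
    Fintype.card_fin, Fintype.card_fin, hK, one_mul]
  exact (pow_add (Pool.Agent.U745.SC.pp i) a b).ge

lemma clo_co : Pool.Agent.Q282.UK.Clo False Pool.Agent.Q193.Zeta.Co where
  iso := Pool.Agent.Q193.Zeta.bnd_co.iso
  total := Pool.Agent.Q193.Zeta.bnd_co.total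
  opened := Pool.Agent.Q193.Zeta.bnd_co.opened
  torus := Pool.Agent.Q193.Zeta.bnd_co.torus

end lemmas

/-- **Q1 in terms of one-sided bounds for numbers of solutions.**

1. Let `X` be a scheme of finite type over `ℤ` and `N(q)` the number of its points over the field with `q` elements.  There is an `e > 0`
such that `∑_{q = p^n} N(q) / n q^{-σ}` converges for `σ > e`.  For every such `e` and every `a > e`: the function
`Z(s) = exp (∑_{q = p^n} N(q) / n q^{-s})` is holomorphic for `Re s > e` and equal to the Euler product of `X` for large `Re s`; its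
derivatives at `a` are real; if `Z(s) = ∑ x_N N^{-s}` for `Re s > e`, with real `x_N`, then
`A_n(a, c) = ∑_N x_N N^{-a} P_n(2(a-c) log N)`; for `c < e`, the Euler product of `X` extends meromorphically to `Re s > c` if and only
if for each `ε > 0` there are a nonzero real polynomial `p` and a `C` with `∑_j p_j A_{n-j}(a, c) ≥ - C exp(ε n)` for all `n`; otherwise
there is a `δ > 0` such that for every nonzero real polynomial `p` infinitely many of the numbers `∑_j p_j A_{n-j}(a, c)` are greater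
than `exp(δ n)` and infinitely many are less than `- exp(δ n)`; the Euler product of `X` extends to a meromorphic function on `ℂ` (Q1
for `X`) if and only if the condition holds for `c = 0, -1, -2, ...`.

2. Q1 is true for all schemes of finite type over `ℤ` if and only if for all systems `E` of bilinear equations
`∑_{(i, j) ∈ E_l} x_i y_j = 0` with at most three terms in `u + v` unknowns `x_1, …, x_u, y_1, …, y_v`, and for all `j = 0, 1, 2, ...`
the condition holds for the numbers `A_n(u + v + 2, -j)` formed with the numbers of the solutions of `E` in finite fields. -/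
theorem result :
    (∀ (X : Scheme.{0}) (f : X ⟶ Spec (CommRingCat.of ℤ)), LocallyOfFiniteType f → QuasiCompact f →
      (∃ e : ℝ, 0 < e ∧ ConvergesAfter (points X) e) ∧
      ∀ e a : ℝ, 0 < e → ConvergesAfter (points X) e → e < a →
        (DifferentiableOn ℂ (Z (points X)) {s : ℂ | e < s.re} ∧
          (∃ σ : ℝ, ∀ s : ℂ, σ < s.re → eulerProduct X s = Z (points X) s) ∧
          (∀ k : ℕ, (iteratedDeriv k (Z (points X)) a).im = 0) ∧
          ∀ x : ℕ → ℝ, (∀ s : ℂ, e < s.re → LSeriesHasSum (fun N => (x N : ℂ)) s (Z (points X) s)) →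
            ∀ (c : ℝ) (n : ℕ), HasSum (fun N : ℕ => x (N + 1) * ((N : ℝ) + 1) ^ (-a) *
              P n (2 * (a - c) * Real.log ((N : ℝ) + 1))) (A (Z (points X)) a c n)) ∧
        (∀ c : ℝ, c < e →
          (ExtendsTo X c ↔ LowerComb (A (Z (points X)) a c)) ∧
          (¬ ExtendsTo X c → ∃ δ : ℝ, 0 < δ ∧ ∀ p : Polynomial ℝ, p ≠ 0 →
            (∃ᶠ n : ℕ in atTop, Real.exp (δ * n) < combination p (A (Z (points X)) a c) n) ∧
            ∃ᶠ n : ℕ in atTop, combination p (A (Z (points X)) a c) n < -Real.exp (δ * n))) ∧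
        (Continues X ↔ ∀ j : ℕ, LowerComb (A (Z (points X)) a (-(j : ℝ))))) ∧
    ((∀ (X : Scheme.{0}) (f : X ⟶ Spec (CommRingCat.of ℤ)), LocallyOfFiniteType f → QuasiCompact f → Continues X) ↔
      ∀ (u v l : ℕ) (E : Fin l → Finset (Fin u × Fin v)), (∀ t, (E t).card ≤ 3) →
        ∀ j : ℕ, LowerComb (A (Z (solutions E)) (u + v + 2) (-(j : ℝ)))) := by
  have key : ∀ (X : Scheme.{0}) (f : X ⟶ Spec (CommRingCat.of ℤ)), LocallyOfFiniteType f → QuasiCompact f →
      ∃ C k : ℕ, (∀ i, points X i ≤ C * Pool.Agent.U745.SC.pp i ^ k) ∧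
        ∀ s : ℂ, (k : ℝ) + 1 < s.re → eulerProduct X s = Z (points X) s := by
    intro X f h1 h2
    obtain ⟨C, k, hb⟩ := Pool.Agent.Q193.Zeta.bounded f
    exact ⟨C, k, fun i => Pool.Agent.U998.OQ.points_le hb i, fun s hs => Pool.Agent.U998.OQ.zeta_ZN hb f hs⟩
  have main : ∀ (X : Scheme.{0}) (f : X ⟶ Spec (CommRingCat.of ℤ)), LocallyOfFiniteType f → QuasiCompact f →
      ∀ e a : ℝ, 0 < e → ConvergesAfter (points X) e → e < a →
        (Continues X ↔ ∀ j : ℕ, LowerComb (A (Z (points X)) a (-(j : ℝ)))) := by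
    intro X f h1 h2 e a he hcv ha
    obtain ⟨C, k, hb, hz⟩ := key X f h1 h2
    exact all_iff he (Pool.Agent.U998.OQ.ZN_diff hcv) ha (fun s _ => Pool.Agent.U998.OQ.ZN_conj _ s) hz
  refine ⟨fun X f h1 h2 => ?_, ?_⟩
  · obtain ⟨C, k, hb, hz⟩ := key X f h1 h2
    refine ⟨⟨k + 1, by positivity, Pool.Agent.U998.OQ.Cv_of_le hb⟩, fun e a he hcv ha => ?_⟩
    have hd : DifferentiableOn ℂ (Z (points X)) (Pool.Agent.U156.OS.HP e) := Pool.Agent.U998.OQ.ZN_diff hcv
    have hr : ∀ s : ℂ, e < s.re → Z (points X) ((starRingEnd ℂ) s) = (starRingEnd ℂ) (Z (points X) s) :=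
      fun s _ => Pool.Agent.U998.OQ.ZN_conj _ s
    refine ⟨⟨hd, ⟨_, hz⟩, fun k => real_der hd ha hr k, fun x hx c n => ?_⟩, fun c hc => ?_, main X f h1 h2 e a he hcv ha⟩
    · rw [A_eq]
      exact Pool.Agent.U156.OS.AR_dir hd ha hx c n
    · have h3 : ExtendsTo X c ↔ LowerComb (A (Z (points X)) a c) := half_iff hd ha hr hz hc
      refine ⟨h3, fun hn => ?_⟩
      exact Pool.Agent.U156.OS.not_merLow fun h => hn (h3.2 h)
  · -- the systems
    have hsys : ∀ (u v l : ℕ) (E : Fin l → Finset (Fin u × Fin v)),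
        Continues (aff ℤ (MvPolynomial (Fin u ⊕ Fin v) ℤ ⧸ Ideal.span (Set.range fun l =>
          ∑ e ∈ E l, (X (Sum.inl e.1) * X (Sum.inr e.2) : MvPolynomial (Fin u ⊕ Fin v) ℤ)))).left ↔
        ∀ j : ℕ, LowerComb (A (Z (solutions E)) (u + v + 2) (-(j : ℝ))) := by
      intro u v l E
      have hF : FT False (aff ℤ (MvPolynomial (Fin u ⊕ Fin v) ℤ ⧸ Ideal.span (Set.range fun l =>
          ∑ e ∈ E l, (X (Sum.inl e.1) * X (Sum.inr e.2) : MvPolynomial (Fin u ⊕ Fin v) ℤ)))) := ft_aff False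
      have h4 := main _ _ hF.1 hF.2 ((u + v : ℕ) + 1 : ℝ) (u + v + 2) (by positivity) (by
        rw [points_system]
        exact Pool.Agent.U998.OQ.Cv_of_le (solutions_le E)) (by push_cast; linarith)
      rw [points_system] at h4
      exact h4
    have h := three_iff short_int clo_co
    constructor
    · intro h1 u v l E _
      have hF : FT False (aff ℤ (MvPolynomial (Fin u ⊕ Fin v) ℤ ⧸ Ideal.span (Set.range fun l =>
          ∑ e ∈ E l, (X (Sum.inl e.1) * X (Sum.inr e.2) : MvPolynomial (Fin u ⊕ Fin v) ℤ)))) := ft_aff False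
      exact (hsys u v l E).1 (h1 _ _ hF.1 hF.2)
    · intro h1 X f hX1 hX2
      have h5 : ∀ Y : Sch ℤ, LocallyOfFiniteType Y.hom → QuasiCompact Y.hom → Continues Y.left := by
        intro Y hY1 hY2
        refine h.mpr ?_ Y ⟨hY1, hY2, fun h => h.elim⟩
        intro u v l E hE
        exact (hsys u v l E).2 (h1 u v l E hE)
      exact h5 (Over.mk f) hX1 hX2

end Pool.Agent.Results.MP_666bea_ag.OneSidedContinuation
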