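import Pool.Agent.U586.MU.GenMain
import Pool.Agent.Q282.UZ.Ord

/-!
# MP_666bea_ag, Q1 and Q2: zeta functions of line arrangements and of unit equations

Every zeta function of a scheme of finite type over `ℤ` of dimension at most `d` is a finite product of
zeta functions of realization spaces of line arrangements (of rank 3 matroids) of dimension at most `d`
which are integral and smooth over `ℤ` or over a prime field, and also a finite product of zeta functions
of schemes of solutions of unit equations with the same properties. It follows that these very special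
schemes decide the continuation of the zeta functions (Q1) for every region of the plane, and the formula
for the order at `s = m` (Q2), in every dimension and for every integer `m` separately. More generally
this is true inside every class of schemes which is hereditary, i.e. which contains with a scheme its
closed and its open subschemes, and with every generic property in the place of smoothness.
-/

set_option autoImplicit false

open CategoryTheory AlgebraicGeometry MvPolynomial Pool.Agent.Y116.UV Pool.Agent.Q282.UZ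
  Pool.Agent.Q193.LT Pool.Agent.U586.MU

universe w

namespace Pool.Agent.Results.MP_666bea_ag.OrdersOfRealizationSpaces

/-- The Euler product `∏ (1 - N(x)^{-s})⁻¹` over the closed points `x` of `X`. -/
noncomputable def eulerProduct (X : Scheme.{0}) (s : ℂ) : ℂ :=
  ∏' x : {x : X // IsClosed ({x} : Set X)}, (1 - ((Nat.card (X.residueField x.1) : ℂ) ^ (-s)))⁻¹

/-- `X` is the realization space over `ℤ` of a configuration type: the scheme of the configurations of
points `e ∈ E` of the projective plane, in the coordinates given by a projective frame, for which exactly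
the triples in a given set are collinear. -/
def IsRealizationSpace (X : Sch ℤ) : Prop :=
  ∃ (E : Type) (_ : Fintype E) (π : Cfg E), X = π.space ℤ

/-- `X` is the scheme over `ℤ` of the families of units `x_i, y_i`, `i ∈ I`, with `x_i + y_i = 1` which
satisfy given signed binomial equations `∏ u_v ^ p_v = ± ∏ u_v ^ q_v`. -/
def IsUnitScheme (X : Sch ℤ) : Prop :=
  ∃ (I : Type) (_ : Fintype I) (S : Set (SBin (I ⊕ I))), X = uspace ℤ S

/-- In some half-plane the zeta function of `X` is the product of the zeta functions of a finite family of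
schemes in `G`. -/
def Factors (G : Sch ℤ → Prop) (X : Sch ℤ) : Prop :=
  ∃ L : List (Sch ℤ), (∀ Y ∈ L, G Y) ∧ ∃ σ : ℝ, ∀ s : ℂ, σ < s.re →
    eulerProduct X.left s = (L.map fun Y => eulerProduct Y.left s).prod

/-- `F` is meromorphic at all points of `Ω` and equal to the Euler product of `X` in some half-plane. -/
def IsContinuation (Ω : Set ℂ) (X : Sch ℤ) (F : ℂ → ℂ) : Prop :=
  MeromorphicOn F Ω ∧ ∃ σ : ℝ, ∀ s : ℂ, σ < s.re → F s = eulerProduct X.left s

/-- The Euler product of `X` has a continuation to `Ω`. For `Ω = ℂ` this is Q1 for `X`. -/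
def Continues (Ω : Set ℂ) (X : Sch ℤ) : Prop := ∃ F : ℂ → ℂ, IsContinuation Ω X F

/-- The assertion of Q2 for `X` and the integer `m`: the zeta function of `X` has a continuation to the
half-plane `Re s ≥ m`; the spaces `A k X`, `k ∈ ℤ`, are finite-dimensional and almost all zero
(`FinRank`); and the order of the zeta function at `s = m` is `-∑ (-1)^k dim A k X`. Here `A k X` stands
for `CH_m(X, k) ⊗ ℚ`. -/
def OrderFormula (m : ℤ) (A : ℤ → Sch ℤ → ModuleCat.{w} ℚ) (X : Sch ℤ) : Prop :=
  ∃ F : ℂ → ℂ, IsContinuation {s | (m : ℝ) ≤ s.re} X F ∧ FinRank A X ∧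
    meromorphicOrderAt F (m : ℂ) =
      ((-∑ᶠ k : ℤ, (k.negOnePow : ℤ) * (Module.finrank ℚ (A k X) : ℤ) : ℤ) : WithTop ℤ)

/-- The spaces `A k X`, `k ∈ ℤ`, are invariant under isomorphisms of `X` and have localization sequences
`⋯ → A k Z → A k X → A k U → A (k - 1) Z → ⋯` for the closed subschemes `Z` of `X`, `U = X ∖ Z`. -/
structure IsLocalizing (A : ℤ → Sch ℤ → ModuleCat.{w} ℚ) : Prop where
  iso : ∀ {X Y : Sch ℤ}, FT False X → Nonempty (X ≅ Y) → ∀ k, Nonempty (A k X ≅ A k Y)
  les : ∀ {Z X U : Sch ℤ} (i : Z ⟶ X) (j : U ⟶ X), FT False X → IsTriple i j →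
    ∃ l : LesMaps A (Equiv.subRight 1) Z X U, l.IsExact

/-- The schemes in the class `K` which are empty, or integral with the property `Sm`. -/
def Nice (K Sm : Sch ℤ → Prop) (X : Sch ℤ) : Prop := K X ∧ Good Sm X

/-- For the schemes in the class `K` the assertion `P` is true for all schemes of finite type over `ℤ` if
and only if it is true for the realization spaces which are empty or integral with the property `Sm`, and
if and only if it is true for the schemes of solutions of unit equations which are empty or integral with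
the property `Sm`. -/
def Decides (K Sm P : Sch ℤ → Prop) : Prop :=
  ((∀ X : Sch ℤ, LocallyOfFiniteType X.hom → QuasiCompact X.hom → K X → P X) ↔
    ∀ X : Sch ℤ, IsRealizationSpace X → Nice K Sm X → P X) ∧
  ((∀ X : Sch ℤ, LocallyOfFiniteType X.hom → QuasiCompact X.hom → K X → P X) ↔
    ∀ X : Sch ℤ, IsUnitScheme X → Nice K Sm X → P X)

lemma decides {K Sm P : Sch ℤ → Prop} (hK : Hered False K) (hS : Generic Sm)
    (hP : Ext False P) : Decides K Sm P := by
  obtain ⟨h1, h2⟩ := three_gen presents_int hP hK hS
  have h0 : (∀ X : Sch ℤ, LocallyOfFiniteType X.hom → QuasiCompact X.hom → K X → P X) ↔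
      ∀ X : Sch ℤ, FT False X → K X → P X :=
    ⟨fun h X hX => h X hX.1 hX.2, fun h X a b => h X ⟨a, b, fun h => h.elim⟩⟩
  constructor
  · rw [h0, h1]
    constructor
    · rintro h X ⟨E, _, π, rfl⟩ ⟨hX1, hX2⟩
      exact h E π hX1 hX2
    · exact fun h E _ π hX1 hX2 => h _ ⟨E, _, π, rfl⟩ ⟨hX1, hX2⟩
  · rw [h0, h2]
    constructor
    · rintro h X ⟨I, _, S, rfl⟩ ⟨hX1, hX2⟩
      exact h I S hX1 hX2
    · exact fun h I _ S hX1 hX2 => h _ ⟨I, _, S, rfl⟩ ⟨hX1, hX2⟩

lemma ext_factors (G : Sch ℤ → Prop) : Ext False (Factors G) where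
  iso {X Y} hX e h := by
    obtain ⟨L, hL, σ, h⟩ := h
    obtain ⟨τ, hτ⟩ := Pool.Agent.Q193.Zeta.zeta_iso hX e
    refine ⟨L, hL, max σ τ, fun s hs => ?_⟩
    rw [← h s (lt_of_le_of_lt (le_max_left _ _) hs)]
    exact (hτ s (lt_of_le_of_lt (le_max_right _ _) hs)).symm
  total {Z X U} i j hX ht hZ hU := by
    obtain ⟨L, hL, σ, h⟩ := hZ
    obtain ⟨L', hL', σ', h'⟩ := hU
    obtain ⟨τ, hτ⟩ := Pool.Agent.Q193.Zeta.zeta_triple hX (Pool.Agent.Q193.Zeta.ft_closed i hX ht.closed)
      (Pool.Agent.Q193.Zeta.ft_open j hX ht.opened) ht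
    refine ⟨L ++ L', fun Y hY => (List.mem_append.mp hY).elim (hL Y) (hL' Y), max (max σ σ') τ,
      fun s hs => ?_⟩
    rw [List.map_append, List.prod_append,
      ← h s (lt_of_le_of_lt ((le_max_left _ _).trans (le_max_left _ _)) hs),
      ← h' s (lt_of_le_of_lt ((le_max_right _ _).trans (le_max_left _ _)) hs)]
    exact (hτ s (lt_of_le_of_lt (le_max_right _ _) hs)).1

lemma factors_self {G : Sch ℤ → Prop} {X : Sch ℤ} (h : G X) : Factors G X :=
  ⟨[X], by simpa using h, 0, fun s _ => by simp⟩

lemma cont_iso {Ω : Set ℂ} {X Y : Sch ℤ} (hX : FT False X) (e : Nonempty (X ≅ Y)) {F : ℂ → ℂ}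
    (h : IsContinuation Ω X F) : IsContinuation Ω Y F := by
  obtain ⟨hF, σ, hσ⟩ := h
  obtain ⟨τ, hτ⟩ := Pool.Agent.Q193.Zeta.zeta_iso hX e
  refine ⟨hF, max σ τ, fun s hs => ?_⟩
  rw [hσ s (lt_of_le_of_lt (le_max_left _ _) hs)]
  exact hτ s (lt_of_le_of_lt (le_max_right _ _) hs)

lemma cont_total {Ω : Set ℂ} {Z X U : Sch ℤ} {i : Z ⟶ X} {j : U ⟶ X} (hX : FT False X)
    (ht : IsTriple i j) {F G : ℂ → ℂ} (hZ : IsContinuation Ω Z F) (hU : IsContinuation Ω U G) :
    IsContinuation Ω X (F * G) := by
  obtain ⟨hF, σ, hσ⟩ := hZ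
  obtain ⟨hG, σ', hσ'⟩ := hU
  obtain ⟨τ, h⟩ := Pool.Agent.Q193.Zeta.zeta_triple hX (Pool.Agent.Q193.Zeta.ft_closed i hX ht.closed)
    (Pool.Agent.Q193.Zeta.ft_open j hX ht.opened) ht
  refine ⟨hF.mul hG, max (max σ σ') τ, fun s hs => ?_⟩
  rw [Pi.mul_apply, hσ s (lt_of_le_of_lt ((le_max_left _ _).trans (le_max_left _ _)) hs),
    hσ' s (lt_of_le_of_lt ((le_max_right _ _).trans (le_max_left _ _)) hs)]
  exact (h s (lt_of_le_of_lt (le_max_right _ _) hs)).1.symm

lemma ext_continues (Ω : Set ℂ) : Ext False (Continues Ω) where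
  iso hX e := fun ⟨F, h⟩ => ⟨F, cont_iso hX e h⟩
  total _ _ hX ht := fun ⟨F, h⟩ ⟨G, h'⟩ => ⟨F * G, cont_total hX ht h h'⟩

lemma ext_formula (m : ℤ) {A : ℤ → Sch ℤ → ModuleCat.{w} ℚ} (hA : IsLocalizing A) :
    Ext False (OrderFormula m A) where
  iso {X Y} hX e h := by
    obtain ⟨F, hF, h1, h2⟩ := h
    obtain ⟨h3, h4⟩ := fin_iso (hA.iso hX e) h1
    refine ⟨F, cont_iso hX e hF, h3, ?_⟩
    change _ = ((-rk A Y : ℤ) : WithTop ℤ)
    rw [h4]
    exact h2
  total {Z X U} i j hX ht hZ hU := by
    obtain ⟨F, hF, h1, h2⟩ := hZ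
    obtain ⟨G, hG, h1', h2'⟩ := hU
    obtain ⟨l, hl⟩ := hA.les i j hX ht
    have h3 := fin_total hl h1 h1'
    refine ⟨F * G, cont_total hX ht hF hG, h3, ?_⟩
    change meromorphicOrderAt F (m : ℂ) = ((-rk A Z : ℤ) : WithTop ℤ) at h2
    change meromorphicOrderAt G (m : ℂ) = ((-rk A U : ℤ) : WithTop ℤ) at h2'
    change _ = ((-rk A X : ℤ) : WithTop ℤ)
    have hm : (m : ℂ) ∈ {s : ℂ | (m : ℝ) ≤ s.re} := by simp
    rw [meromorphicOrderAt_mul (hF.1 _ hm) (hG.1 _ hm), h2, h2', rk_les hl h1 h3 h1',
      ← WithTop.coe_add]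
    congr 1
    ring

/-- **Theorem.** (0) The class of the schemes of dimension at most `d` is hereditary, and smoothness over
`ℤ` or a prime field is a generic property. Let `K` be a hereditary class of schemes over `ℤ` and `Sm` a
generic property, for example these.

(1) The zeta function of every scheme of finite type over `ℤ` in `K` is in some half-plane a finite
product of zeta functions of realization spaces in `K` which are empty or integral with the property
`Sm`, and a finite product of zeta functions of schemes of solutions of unit equations with the same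
properties.

(2) For every set `Ω` of complex numbers: the zeta functions of all schemes in `K` have a meromorphic
continuation to `Ω` if and only if those of the realization spaces in `K` which are empty or integral with
the property `Sm` do, and if and only if those of the schemes of solutions of unit equations with the same
properties do.

(3) For all families of groups with localization sequences and every integer `m`, the formula for the
order at `s = m` is true for all schemes in `K` if and only if it is true for the realization spaces in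
`K` which are empty or integral with the property `Sm`, and if and only if it is true for the schemes of
solutions of unit equations with the same properties. -/
theorem result :
    (∀ d : WithBot ℕ∞, Hered False fun X : Sch ℤ => topologicalKrullDim X.left ≤ d) ∧
    (Generic fun X : Sch ℤ => SmoothOverPrime X.left) ∧
    ∀ K Sm : Sch ℤ → Prop, Hered False K → Generic Sm →
      (∀ X : Sch ℤ, LocallyOfFiniteType X.hom → QuasiCompact X.hom → K X →
        Factors (fun Y => IsRealizationSpace Y ∧ Nice K Sm Y) X ∧
        Factors (fun Y => IsUnitScheme Y ∧ Nice K Sm Y) X) ∧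
      (∀ Ω : Set ℂ, Decides K Sm (Continues Ω)) ∧
      ∀ (m : ℤ) (A : ℤ → Sch ℤ → ModuleCat.{w} ℚ), IsLocalizing A →
        Decides K Sm (OrderFormula m A) := by
  refine ⟨fun d => hered_dim False d, generic_smooth, fun K Sm hK hS =>
    ⟨fun X h1 h2 h3 => ⟨?_, ?_⟩, fun Ω => decides hK hS (ext_continues Ω),
      fun m A hA => decides hK hS (ext_formula m hA)⟩⟩
  · exact (decides hK hS (ext_factors _)).1.mpr (fun Y hY hK => factors_self ⟨hY, hK⟩) X h1 h2 h3
  · exact (decides hK hS (ext_factors _)).2.mpr (fun Y hY hK => factors_self ⟨hY, hK⟩) X h1 h2 h3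

end Pool.Agent.Results.MP_666bea_ag.OrdersOfRealizationSpaces
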