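import Pool.Agent.U745.SC.Sys
import Pool.Agent.Q282.UZ.Ord
import Pool.Agent.R409.RA.Mean

/-!
# The orders of zeta functions of arithmetic schemes in terms of the numbers of solutions in finite fields

Let `X` be a scheme of finite type over `ℤ`, `N(q)` the number of the points of `X` with coordinates in
the field with `q` elements, and `m` an integer.  The conjecture of Bloch and Soulé (Q2) says that the order
of `ζ_X(s)` at `s = m` is `- ∑ (-1)^k dim CH_m(X, k) ⊗ ℚ`.  The point `m` may be far outside of the half-plane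
where the Euler product converges.  For a real number `τ` put, with `ω = 1 + iτ` and `x > 1`,

`W_τ(x) = ∑_{q = p^n} N(q) / (n q^m Γ(1 + ω log q / log x))`,

the sum over all prime powers; the series converges absolutely, for every `m`.  Put
`κ = ∫_0^∞ (e^{-t} - 1 / Γ(1 + t)) dt / t`.  Suppose that `ζ_X(s)` has a meromorphic continuation `F` to
`Re s ≥ m`.  Nothing is assumed on its zeros and poles, and no functional equation.  We prove:

* for all `τ`, except for finitely many in every bounded interval, `F` has no zeros and poles on the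
  ray `m + ω y`, `y > 0`, and then `exp (W_τ(x)) (log x / (ω e^κ))^r = ℓ + O(1 / log x)`, where
  `ℓ (s - m)^r` is the leading term of `F` at `s = m`;
* for the other `τ` one has `W_τ(x) ~ - k ∫_0^∞ (x^{y u} - 1) du / (u Γ(1 + u))`, `m + ω y` being the
  last zero or pole on the ray and `k` its order;
* the order of `F` at `s = m` is `- ρ` if and only if for one `τ` and one sequence `x → ∞` one has
  `Re W_τ(x) / log log x → ρ`, and then `Re W_τ(x) = ρ log log x + O(1)` for all free `τ`.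

The starting result `OrdersOfThreeTermSystems` reduces Q1 and Q2 for all schemes to the systems of bilinear
equations `∑_{(i, j) ∈ E_l} x_i y_j = 0` with at most three terms.  Both together give a form of the
conjecture of Bloch and Soulé in which only the numbers of solutions of such systems in finite fields occur:
assuming the known properties `IsChow` of higher Chow groups, Q1 and Q2 are true for all schemes of finite
type over `ℤ` if and only if for every such system `E` the zeta function of `E` has a meromorphic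
continuation, and for all `m` the ranks of `CH_m(E, k)` are finite and almost all zero, and, `N(q)` being the
number of the solutions of `E` in the field with `q` elements, for one `τ` and one sequence `x → ∞` one has
`Re ∑_{q = p^n} N(q) / (n q^m Γ(1 + ω log q / log x)) / log log x → ∑ (-1)^k rank CH_m(E, k)`.
-/

set_option autoImplicit false

open CategoryTheory AlgebraicGeometry MvPolynomial Pool.Agent.Y116.UV Pool.Agent.Q282.UZ Filter Topology

universe w

namespace Pool.Agent.Results.MP_666bea_ag.PointCountOrders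

/-- The Euler product `∏ (1 - N(x)^{-s})⁻¹` over the closed points `x` of `X`. -/
noncomputable def eulerProduct (X : Scheme.{0}) (s : ℂ) : ℂ :=
  ∏' x : {x : X // IsClosed ({x} : Set X)}, (1 - ((Nat.card (X.residueField x.1) : ℂ) ^ (-s)))⁻¹

/-- The number of the points of `X` with coordinates in the field with `p ^ n` elements, `i = (p, n - 1)`. -/
noncomputable def points (X : Scheme.{0}) (i : Nat.Primes × ℕ) : ℕ :=
  haveI : Fact (i.1 : ℕ).Prime := ⟨i.1.2⟩
  Nat.card (Spec (CommRingCat.of (GaloisField i.1 (i.2 + 1))) ⟶ X)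

/-- The number of the solutions of the system `∑_{(i, j) ∈ E_l} x_i y_j = 0`, `l = 1, …, c`, in the field
with `p ^ n` elements, `i = (p, n - 1)`. -/
noncomputable def solutions {a b c : ℕ} (E : Fin c → Finset (Fin a × Fin b)) (i : Nat.Primes × ℕ) : ℕ :=
  haveI : Fact (i.1 : ℕ).Prime := ⟨i.1.2⟩
  Nat.card {z : (Fin a → GaloisField i.1 (i.2 + 1)) × (Fin b → GaloisField i.1 (i.2 + 1)) //
    ∀ l, ∑ e ∈ E l, z.1 e.1 * z.2 e.2 = 0}

/-- The affine scheme over `ℤ` of the system `∑_{(i, j) ∈ E_l} x_i y_j = 0`, `l = 1, …, c`. -/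
noncomputable def system {a b c : ℕ} (E : Fin c → Finset (Fin a × Fin b)) : Sch ℤ :=
  aff ℤ (MvPolynomial (Fin a ⊕ Fin b) ℤ ⧸ Ideal.span (Set.range fun l =>
    ∑ e ∈ E l, (X (Sum.inl e.1) * X (Sum.inr e.2) : MvPolynomial (Fin a ⊕ Fin b) ℤ)))

/-- The term of `W_τ(x)` at `q = p ^ n`, `i = (p, n - 1)`: `N(q) / (n q^m Γ(1 + ω log q / log x))`. -/
noncomputable def term (N : Nat.Primes × ℕ → ℕ) (m : ℤ) (τ x : ℝ) (i : Nat.Primes × ℕ) : ℂ :=
  N i / ((i.2 + 1) * (((i.1 : ℕ) : ℂ) ^ m) ^ (i.2 + 1) *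
    Complex.Gamma (1 + (1 + τ * Complex.I) *
      (((i.2 + 1) * Real.log (i.1 : ℕ) : ℝ) / Real.log x)))

/-- `W_τ(x)`, the sum over all prime powers. -/
noncomputable def W (N : Nat.Primes × ℕ → ℕ) (m : ℤ) (τ x : ℝ) : ℂ := ∑' i, term N m τ x i

/-- `F` is meromorphic at all points of the half-plane `Re s ≥ m`, and it is the Euler product of `X` for
large `Re s`. -/
def IsContinuation (X : Scheme.{0}) (m : ℤ) (F : ℂ → ℂ) : Prop :=
  (∀ s : ℂ, (m : ℝ) ≤ s.re → MeromorphicAt F s) ∧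
    ∃ A : ℝ, ∀ s : ℂ, A < s.re → F s = eulerProduct X s

/-- The point `m + (1 + iτ) y`. -/
noncomputable def ray (m : ℤ) (τ y : ℝ) : ℂ := m + (1 + τ * Complex.I) * y

/-- `F` has a zero or a pole on the ray `{m + (1 + iτ) y : y > 0}`. -/
def Blocked (m : ℤ) (F : ℂ → ℂ) (τ : ℝ) : Prop :=
  ∃ y : ℝ, 0 < y ∧ meromorphicOrderAt F (ray m τ y) ≠ 0

/-- The leading term of `F` at `s = m` is `ℓ (s - m)^r`. -/
def LeadingTerm (m : ℤ) (F : ℂ → ℂ) (r : ℤ) (ℓ : ℂ) : Prop :=
  Tendsto (fun s : ℂ => (s - m) ^ (-r) * F s) (𝓝[≠] (m : ℂ)) (𝓝 ℓ)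

/-- `κ = ∫_0^∞ (e^{-t} - 1/Γ(1 + t)) dt/t`. -/
noncomputable def kappa : ℝ :=
  ∫ t in Set.Ioi (0 : ℝ), (Real.exp (-t) - (Real.Gamma (1 + t))⁻¹) / t

/-- `∫_0^∞ (e^{yu} - 1) / (u Γ(1 + u)) du`. -/
noncomputable def grow (y : ℝ) : ℝ :=
  ∫ u in Set.Ioi (0 : ℝ), (Real.exp (y * u) - 1) / (u * Real.Gamma (1 + u))

/-- For all `τ` such that `F` has no zeros and poles on the ray,
`exp (W_τ(x)) (log x / (ω e^κ))^r = ℓ + O(1 / log x)`. -/
def FreeLaw (m : ℤ) (F : ℂ → ℂ) (V : ℝ → ℝ → ℂ) (r : ℤ) (ℓ : ℂ) : Prop :=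
  ∀ τ : ℝ, ¬ Blocked m F τ → ∃ C : ℝ, ∀ᶠ x : ℝ in atTop,
    ‖Complex.exp (V τ x) * (Real.log x / ((1 + τ * Complex.I) * Real.exp kappa)) ^ r - ℓ‖ ≤
      C / Real.log x

/-- The conclusion for the other directions: `m + (1 + iτ) y` being the last zero or pole on the ray, of
order `k`, `W_τ(x) ~ - k ∫_0^∞ (x^{y u} - 1) du / (u Γ(1 + u))`. -/
def BlockedLaw (m : ℤ) (F : ℂ → ℂ) (V : ℝ → ℝ → ℂ) : Prop :=
  ∀ τ : ℝ, Blocked m F τ → ∃ (y : ℝ) (k : ℤ), 0 < y ∧ k ≠ 0 ∧
    meromorphicOrderAt F (ray m τ y) = k ∧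
    (∀ z : ℝ, y < z → meromorphicOrderAt F (ray m τ z) = 0) ∧
    Tendsto (fun x : ℝ => V τ x / grow (y * Real.log x)) atTop (𝓝 (-k)) ∧
    ∀ c < y, ∀ᶠ x : ℝ in atTop, Real.exp (x ^ c) ≤ |(V τ x).re|

/-- For one `τ` and one sequence `x → ∞` one has `Re W_τ(x) / log log x → ρ`. -/
def OneLimit (V : ℝ → ℝ → ℂ) (ρ : ℤ) : Prop :=
  ∃ (τ : ℝ) (x : ℕ → ℝ), Tendsto x atTop atTop ∧
    Tendsto (fun n => (V τ (x n)).re / Real.log (Real.log (x n))) atTop (𝓝 (ρ : ℝ))

/-- `∑ (-1)^k dim A m k X`. -/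
noncomputable def euler (A : ℤ → ℤ → Sch ℤ → ModuleCat.{w} ℚ) (m : ℤ) (X : Sch ℤ) : ℤ :=
  ∑ᶠ k : ℤ, (k.negOnePow : ℤ) * (Module.finrank ℚ (A m k X) : ℤ)

/-- **The assertions of Q1 and Q2 for `X`**: there is a function `F`, meromorphic on `ℂ`, which is equal to
the Euler product of `X` in some half-plane; for all integers `m` the spaces `A m k X`, `k ∈ ℤ`, are
finite-dimensional and almost all zero (`FinRank`), and the order of `F` at `s = m` is
`-∑ (-1)^k dim A m k X`. -/
def BlochSoule (A : ℤ → ℤ → Sch ℤ → ModuleCat.{w} ℚ) (X : Sch ℤ) : Prop :=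
  ∃ F : ℂ → ℂ, MeromorphicOn F Set.univ ∧
    (∃ σ : ℝ, ∀ s : ℂ, σ < s.re → F s = eulerProduct X.left s) ∧
    ∀ m : ℤ, FinRank (A m) X ∧ meromorphicOrderAt F (m : ℂ) = ((-euler A m X : ℤ) : WithTop ℤ)

/-- The Euler product over the closed points of `X` extends to a meromorphic function on `ℂ` (Q1 for
`X`). -/
def Continues (X : Sch ℤ) : Prop :=
  ∃ F : ℂ → ℂ, MeromorphicOn F Set.univ ∧ ∃ σ : ℝ, ∀ s : ℂ, σ < s.re → F s = eulerProduct X.left s

section bridge

variable {X : Scheme.{0}} {m : ℤ} {F : ℂ → ℂ}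

theorem ser (f : X ⟶ Spec (CommRingCat.of ℤ)) [LocallyOfFiniteType f] [QuasiCompact f]
    (hF : IsContinuation X m F) : ∃ A : ℝ, U745.DS.Ser U745.SC.zlam
      (U745.DS.sh U745.SC.zlam (U745.SC.zco X) (m : ℂ)) A (fun s => F ((m : ℂ) + s)) := by
  obtain ⟨C, k, hb⟩ := Q193.Zeta.bounded f
  obtain ⟨A, hA⟩ := hF.2
  exact ⟨_, (U745.SC.half_zeta (σ₀ := (m : ℝ)) hb f hF.1 hA).at (by simp)⟩

theorem term_eq (X : Scheme.{0}) (m : ℤ) (τ x : ℝ) (i : Nat.Primes × ℕ) :
    term (points X) m τ x i =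
    U745.DS.sh U745.SC.zlam (U745.SC.zco X) (m : ℂ) i *
      (Complex.Gamma (1 + W524.RY.dir τ * (U745.SC.zlam i / Real.log x)))⁻¹ := by
  unfold term U745.DS.sh
  have e : ∀ S a b g : ℂ, S / (a * b * g) = S / a * b⁻¹ * g⁻¹ := by
    intro S a b g
    rw [div_eq_mul_inv, mul_inv, mul_inv, div_eq_mul_inv]
    ring
  rw [U745.SC.exp_zlam, Complex.cpow_neg, Complex.cpow_intCast, e]
  have e2 : ((U745.SC.pp i : ℕ) : ℂ) ^ m = (((i.1 : ℕ) : ℂ) ^ m) ^ (i.2 + 1) := by
    unfold U745.SC.pp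
    push_cast
    rw [← zpow_natCast, ← zpow_natCast, ← zpow_mul, ← zpow_mul, mul_comm]
  rw [e2]
  rfl

theorem W_eq (X : Scheme.{0}) (m : ℤ) (τ x : ℝ) : W (points X) m τ x = U745.DS.WW U745.SC.zlam
      (U745.DS.sh U745.SC.zlam (U745.SC.zco X) (m : ℂ)) τ x := by
  unfold W U745.DS.WW U745.DS.VV
  exact tsum_congr fun p => term_eq X m τ x p

theorem blocked_iff {τ : ℝ} : ¬ Blocked m F τ ↔ U745.DS.Clear (fun s => F ((m : ℂ) + s)) τ := by
  rw [U745.DS.clear_iff]
  unfold Blocked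
  push Not
  rfl

theorem lead_iff (r : ℤ) (ℓ : ℂ) : LeadingTerm m F r ℓ ↔
    U745.LT.Leading (fun s => F ((m : ℂ) + s)) 0 r ℓ := by
  rw [U745.DS.leading_shift]
  rfl

end bridge

/-- part (1) of the theorem -/
def SchemeLaw (X : Scheme.{0}) (m : ℤ) (F : ℂ → ℂ) : Prop :=
  (∀ τ x : ℝ, 1 < x → Summable fun i => ‖term (points X) m τ x i‖) ∧
    (∀ b : ℝ, {τ : ℝ | |τ| ≤ b ∧ Blocked m F τ}.Finite) ∧
    (∃ (r : ℤ) (ℓ : ℂ), ℓ ≠ 0 ∧ meromorphicOrderAt F (m : ℂ) = r ∧ LeadingTerm m F r ℓ ∧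
      FreeLaw m F (W (points X) m) r ℓ) ∧
    BlockedLaw m F (W (points X) m) ∧
    ∀ ρ : ℤ, List.TFAE [
      meromorphicOrderAt F (m : ℂ) = ((-ρ : ℤ) : WithTop ℤ),
      OneLimit (W (points X) m) ρ,
      ∀ τ : ℝ, ¬ Blocked m F τ → ∃ C : ℝ, ∀ᶠ x : ℝ in atTop,
        |(W (points X) m τ x).re - ρ * Real.log (Real.log x)| ≤ C]

theorem law (X : Scheme.{0}) (f : X ⟶ Spec (CommRingCat.of ℤ)) [LocallyOfFiniteType f]
    [QuasiCompact f] (m : ℤ) (F : ℂ → ℂ) (hF : IsContinuation X m F) : SchemeLaw X m F := by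
  obtain ⟨A, hS⟩ := ser f hF
  have hW : ∀ τ : ℝ, W (points X) m τ = U745.DS.WW U745.SC.zlam
      (U745.DS.sh U745.SC.zlam (U745.SC.zco X) (m : ℂ)) τ := fun τ =>
    funext fun x => W_eq X m τ x
  obtain ⟨r, ℓ, hℓ, hl⟩ := U745.DS.exists_leading hS
  have hmF : MeromorphicAt F (m : ℂ) := hF.1 _ (by simp)
  have hord : meromorphicOrderAt F (m : ℂ) = r := by
    have h1 := ((U745.LT.leading_iff (hS.mer 0 (by simp)) hℓ).1 hl).1
    rwa [U745.DS.order_shift, add_zero] at h1
  refine ⟨fun τ x hx => ?_, fun b => ?_, ⟨r, ℓ, hℓ, hord, (lead_iff r ℓ).2 hl, fun τ hτ => ?_⟩,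
    fun τ hτ => ?_, fun ρ => ?_⟩
  · refine (U745.DS.VV_summable hS τ (Real.log_pos hx)).congr fun p => ?_
    rw [term_eq]
  · refine (hS.blocked_finite b).subset ?_
    rintro τ ⟨h1, h2⟩
    have h3 : ¬ U745.DS.Clear (fun s => F ((m : ℂ) + s)) τ := fun h => (blocked_iff.2 h) h2
    unfold U745.DS.Clear at h3
    push Not at h3
    exact ⟨h1, h3⟩
  · have h1 := U745.DS.law_of_leading hS hℓ hl (blocked_iff.1 hτ)
    simp only [hW]
    exact h1
  · obtain ⟨y, hy, hyz⟩ := hτ
    obtain ⟨x₀, h0, h01, hnz, hz⟩ := hS.exists_last τ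
    have hray : ∀ y : ℝ, meromorphicOrderAt (fun s => F ((m : ℂ) + s)) (U745.DS.rp τ y) =
        meromorphicOrderAt F (ray m τ y) := by
      intro y
      rw [U745.DS.order_shift]
      rfl
    have hx0 : 0 < x₀ := by
      by_contra hcon
      apply hyz
      rw [← hray]
      exact hnz y (by linarith)
    have hz' : meromorphicOrderAt (fun s => F ((m : ℂ) + s)) (U745.DS.rp τ x₀) ≠ 0 := by
      rcases hz with h2 | h2
      · exact absurd h2 hx0.ne'
      · exact h2
    obtain ⟨k, hk⟩ := WithTop.ne_top_iff_exists.1 (hS.ne_top (s := U745.DS.rp τ x₀) (by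
      rw [U745.DS.rp_re]
      linarith))
    have hk0 : k ≠ 0 := by
      rintro rfl
      exact hz' (by rw [← hk]; rfl)
    obtain ⟨g1, g2⟩ := U745.DS.blocked hS τ hx0 h01 hk.symm hk0 hnz
    refine ⟨x₀, k, hx0, hk0, by rw [← hray]; exact hk.symm, fun z hz => ?_, ?_, fun c hc => ?_⟩
    · rw [← hray]
      exact hnz z hz
    · rw [hW]
      exact g1
    · rw [hW]
      filter_upwards [g2 c hc] with x hx
      have hs : |(-(Int.sign k : ℝ))| ≤ 1 := by
        rcases lt_trichotomy k 0 with h6 | h6 | h6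
        · rw [Int.sign_eq_neg_one_of_neg h6]; norm_num
        · rw [h6]; simp
        · rw [Int.sign_eq_one_of_pos h6]; norm_num
      refine hx.trans ((le_abs_self _).trans ?_)
      rw [abs_mul]
      exact mul_le_of_le_one_left (abs_nonneg _) hs
  · have h1 := U745.DS.order_tfae hS (-ρ)
    have e1 : meromorphicOrderAt (fun s => F ((m : ℂ) + s)) 0 = ((-ρ : ℤ) : WithTop ℤ) ↔
        meromorphicOrderAt F (m : ℂ) = ((-ρ : ℤ) : WithTop ℤ) := by
      rw [U745.DS.order_shift, add_zero]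
    unfold OneLimit
    simp only [hW, blocked_iff]
    rw [← e1]
    simp only [Int.cast_neg, neg_neg, neg_mul, ← sub_eq_add_neg] at h1 ⊢
    exact h1

section chow

variable {A : ℤ → ℤ → Sch ℤ → ModuleCat.{w} ℚ}

/-- the numerical form for one scheme -/
theorem numerical (X : Sch ℤ) (h1 : LocallyOfFiniteType X.hom) (h2 : QuasiCompact X.hom) :
    BlochSoule A X ↔ Continues X ∧ ∀ m : ℤ, FinRank (A m) X ∧
      OneLimit (W (points X.left) m) (euler A m X) := by
  constructor
  · rintro ⟨F, hF, ⟨σ, hσ⟩, h⟩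
    refine ⟨⟨F, hF, σ, hσ⟩, fun m => ⟨(h m).1, ?_⟩⟩
    have h3 := (law X.left X.hom m F ⟨fun s _ => hF s trivial, σ, hσ⟩).2.2.2.2 (euler A m X)
    have h4 : meromorphicOrderAt F (m : ℂ) = ((-euler A m X : ℤ) : WithTop ℤ) ↔
        OneLimit (W (points X.left) m) (euler A m X) := h3.out 0 1
    exact h4.1 (h m).2
  · rintro ⟨⟨F, hF, σ, hσ⟩, h⟩
    refine ⟨F, hF, ⟨σ, hσ⟩, fun m => ⟨(h m).1, ?_⟩⟩
    have h3 := (law X.left X.hom m F ⟨fun s _ => hF s trivial, σ, hσ⟩).2.2.2.2 (euler A m X)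
    have h4 : meromorphicOrderAt F (m : ℂ) = ((-euler A m X : ℤ) : WithTop ℤ) ↔
        OneLimit (W (points X.left) m) (euler A m X) := h3.out 0 1
    exact h4.2 (h m).2

theorem points_system {a b c : ℕ} (E : Fin c → Finset (Fin a × Fin b)) :
    points (system E).left = solutions E := by
  funext i
  exact U745.SC.points_sys E i

end chow

/-- **The conjecture of Bloch and Soulé in terms of numbers of solutions.**

(1) Let `X` be a scheme of finite type over `ℤ`, `m` an integer and `F` a meromorphic continuation of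
`ζ_X(s)` to `Re s ≥ m`.  The series `W_τ(x)` converges absolutely for all `x > 1`; only finitely many `τ`
in every bounded interval are blocked; `F` has a leading term `ℓ (s - m)^r` at `s = m`, and for the `τ`
that are not blocked `exp (W_τ(x)) (log x / (ω e^κ))^r = ℓ + O(1 / log x)`; for the blocked `τ` one has
`W_τ(x) ~ - k ∫_0^∞ (x^{y u} - 1) du / (u Γ(1 + u))`; for every integer `ρ` the following are equivalent:
the order of `F` at `s = m` is `- ρ`; for one `τ` and one sequence `x → ∞` one has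
`Re W_τ(x) / log log x → ρ`; for all `τ` that are not blocked `Re W_τ(x) = ρ log log x + O(1)`.

(2) Let `A m k X` be families of rational vector spaces with the properties `IsChow A` of the higher Chow
groups `CH_m(X, k) ⊗ ℚ`.  The assertions of Q1 and Q2 are true for all schemes of finite type over `ℤ` if
and only if for all systems `E` of bilinear equations `∑_{(i, j) ∈ E_l} x_i y_j = 0` with at most three
terms: the zeta function of `E` has a meromorphic continuation to `ℂ`, and for all `m` the spaces `A m k E`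
are finite-dimensional and almost all zero, and `OneLimit` holds for the numbers of the solutions of `E` in
finite fields, with the limit `∑ (-1)^k dim A m k E`. -/
theorem result :
    (∀ (X : Scheme.{0}) (f : X ⟶ Spec (CommRingCat.of ℤ)), LocallyOfFiniteType f → QuasiCompact f →
      ∀ (m : ℤ) (F : ℂ → ℂ), IsContinuation X m F → SchemeLaw X m F) ∧
    ∀ A : ℤ → ℤ → Sch ℤ → ModuleCat.{w} ℚ, IsChow A →
      ((∀ X : Sch ℤ, LocallyOfFiniteType X.hom → QuasiCompact X.hom → BlochSoule A X) ↔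
        ∀ (a b c : ℕ) (E : Fin c → Finset (Fin a × Fin b)), (∀ l, (E l).card ≤ 3) →
          Continues (system E) ∧ ∀ m : ℤ, FinRank (A m) (system E) ∧
            OneLimit (W (solutions E) m) (euler A m (system E))) := by
  refine ⟨fun X f h1 h2 m F hF => law X f m F hF, fun A hA => ?_⟩
  have hP : Pool.Agent.Q282.UK.Clo False (BlochSoule A) := clo_formula hA
  have h := three_iff short_int hP
  constructor
  · intro h1 a b c E _
    have h2 : FT False (system E) := ft_aff False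
    rw [← points_system]
    exact (numerical _ h2.1 h2.2).1 (h1 _ h2.1 h2.2)
  · intro h1 X hX1 hX2
    refine h.mpr ?_ X ⟨hX1, hX2, fun h => h.elim⟩
    intro a b c E hE
    have h2 : FT False (system E) := ft_aff False
    refine (numerical (system E) h2.1 h2.2).2 ?_
    rw [points_system]
    exact h1 a b c E hE

end Pool.Agent.Results.MP_666bea_ag.PointCountOrders
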