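import Pool.Agent.U738.ZO.Times

/-!
# Zeta orders and ranks of higher Chow groups: equations with two terms and equations with three terms

For a scheme `X` of finite type over `ℤ` let `eulerProduct X` be the Euler product over the closed points
of `X`, and let `A m k X = CH_m(X, k) ⊗ ℚ` (cycles of dimension `m + k` on `X × Δ^k`; it is
`CH^r(X, k) ⊗ ℚ` with `r = d - m`, `d = dim X`).  The hypothesis `IsChow A` (starting library) collects
known properties of these groups (Bloch, Levine).  `BlochSoule A X` consists of the assertions of Q1 and
Q2 for the scheme `X`.  They are known for the affine schemes of dimension at most one, that is for the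
rings of integers of number fields, for curves over finite fields (Hecke, Weil, Borel, Harder) and, by
localization, for all rings of finite type of dimension at most one.

We show that Q1 and Q2 are true for all schemes, of any dimension, which are given by any set of equations
with at most two terms whose coefficients are arbitrary elements of a ring `S` of finite type over `ℤ` of
dimension at most one.  And for every `t ≥ 3` the same statement with `t` terms is equivalent to Q1 and
Q2 for all schemes.
-/

set_option autoImplicit false

open CategoryTheory AlgebraicGeometry MvPolynomial Pool.Agent.Y116.UV Pool.Agent.Q282.UK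
  Pool.Agent.Q282.UZ Pool.Agent.U738.BN Pool.Agent.U738.ZO

universe w

namespace Pool.Agent.Results.MP_666bea_ag.TwoAndThreeTerms

/-- The Euler product `∏ (1 - N(x)^{-s})⁻¹` over the closed points `x` of `X`. -/
noncomputable def eulerProduct (X : Scheme.{0}) (s : ℂ) : ℂ :=
  ∏' x : {x : X // IsClosed ({x} : Set X)}, (1 - ((Nat.card (X.residueField x.1) : ℂ) ^ (-s)))⁻¹

/-- **The assertions of Q1 and Q2 for `X`**: there is a function `F`, meromorphic on `ℂ`, which is equal to
the Euler product of `X` in some half-plane; for all integers `m` the spaces `A m k X`, `k ∈ ℤ`, are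
finite-dimensional and almost all zero (`FinRank`), and the order of `F` at `s = m` is
`-∑ (-1)^k dim A m k X`. -/
def BlochSoule (A : ℤ → ℤ → Sch ℤ → ModuleCat.{w} ℚ) (X : Sch ℤ) : Prop :=
  ∃ F : ℂ → ℂ, MeromorphicOn F Set.univ ∧
    (∃ σ : ℝ, ∀ s : ℂ, σ < s.re → F s = eulerProduct X.left s) ∧
    ∀ m : ℤ, FinRank (A m) X ∧ meromorphicOrderAt F (m : ℂ) =
      ((-∑ᶠ k : ℤ, (k.negOnePow : ℤ) * (Module.finrank ℚ (A m k X) : ℤ) : ℤ) : WithTop ℤ)

/-- **Theorem.** Let `A m k X` have the properties `IsChow` of the spaces `CH_m(X, k) ⊗ ℚ`, and suppose
that Q1 and Q2 are true for the rings of finite type over `ℤ` of dimension at most one (this is known).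
For every `t ≥ 0` the following statements are equivalent:
(1) Q1 and Q2 are true for all schemes given by any set of equations with at most `t` terms whose
coefficients are in a ring of finite type over `ℤ` of dimension at most one;
(2) Q1 and Q2 are true for all schemes over `ℤ` given by finite systems of bilinear equations with at most
`t` terms in every equation and coefficients `1`;
(3) `t ≤ 2`, or Q1 and Q2 are true for all schemes of finite type over `ℤ`.
In particular (1) and (2) are true for `t = 2`, and equivalent to Q1 and Q2 for `t = 3`. -/
theorem result (A : ℤ → ℤ → Sch ℤ → ModuleCat.{w} ℚ) (hA : IsChow A)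
    (hd : ∀ (B : Type) [CommRing B] [Algebra ℤ B] [Algebra.FiniteType ℤ B], ringKrullDim B ≤ 1 →
      BlochSoule A (aff ℤ B)) (t : ℕ) :
    List.TFAE [ForTerms 1 t (BlochSoule A), ForBilinear t (BlochSoule A),
      t ≤ 2 ∨ ∀ X : Sch ℤ, FT False X → BlochSoule A X] :=
  dichotomy_int (fun x => ⟨x, rfl⟩) (clo_formula hA) (posD_formula hA hd)
    (IsPrincipalIdealRing.ringKrullDim_eq_one ℤ Int.not_isField).le t

end Pool.Agent.Results.MP_666bea_ag.TwoAndThreeTerms
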